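import Mathlib
import Pool.Prelude.Def_F_a92f9a66

/-!
# C4-free subgraphs of the hypercube: the empty four-cycles

For a `C4`-free subgraph `H` of `Q_n` the second moment of the degrees is an exact count of the
four-cycles of `Q_n` that contain no edge of `H` and of those that contain exactly two opposite
edges of `H`.
-/

open SimpleGraph Finset

namespace Pool.Agent.Results.MP_4093f8_co.EmptyFourCycles

variable {n : ℕ}

/-- The vertex `x` with its coordinate `i` switched. -/
def flip (x : Fin n → Bool) (i : Fin n) : Fin n → Bool := Function.update x i (!x i)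

/-- The four-cycles of `Q_n`: the four vertices `x`, `flip x i`, `flip x j`,
`flip (flip x i) j` with `i < j` and `x i = x j = false`. -/
def fourCycles (n : ℕ) : Finset ((Fin n → Bool) × Fin n × Fin n) :=
  univ.filter fun t => t.2.1 < t.2.2 ∧ t.1 t.2.1 = false ∧ t.1 t.2.2 = false

open Classical in
/-- The four-cycles of `Q_n` none of whose four edges belongs to `H`. -/
noncomputable def emptyCycles (H : SimpleGraph (Fin n → Bool)) :
    Finset ((Fin n → Bool) × Fin n × Fin n) :=
  (fourCycles n).filter fun t =>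
    ¬ H.Adj t.1 (flip t.1 t.2.1) ∧ ¬ H.Adj t.1 (flip t.1 t.2.2) ∧
    ¬ H.Adj (flip t.1 t.2.2) (flip (flip t.1 t.2.1) t.2.2) ∧
    ¬ H.Adj (flip t.1 t.2.1) (flip (flip t.1 t.2.1) t.2.2)

open Classical in
/-- The four-cycles of `Q_n` exactly two of whose four edges belong to `H`, these two edges being
opposite (disjoint). -/
noncomputable def oppositeCycles (H : SimpleGraph (Fin n → Bool)) :
    Finset ((Fin n → Bool) × Fin n × Fin n) :=
  (fourCycles n).filter fun t =>
    (H.Adj t.1 (flip t.1 t.2.1) ∧ ¬ H.Adj t.1 (flip t.1 t.2.2) ∧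
      H.Adj (flip t.1 t.2.2) (flip (flip t.1 t.2.1) t.2.2) ∧
      ¬ H.Adj (flip t.1 t.2.1) (flip (flip t.1 t.2.1) t.2.2)) ∨
    (¬ H.Adj t.1 (flip t.1 t.2.1) ∧ H.Adj t.1 (flip t.1 t.2.2) ∧
      ¬ H.Adj (flip t.1 t.2.2) (flip (flip t.1 t.2.1) t.2.2) ∧
      H.Adj (flip t.1 t.2.1) (flip (flip t.1 t.2.1) t.2.2))

lemma flip_flip (x : Fin n → Bool) (i : Fin n) : flip (flip x i) i = x := by
  funext k
  by_cases h : k = i
  · subst h; simp [flip]
  · simp [flip, h]

lemma flip_comm (x : Fin n → Bool) (i j : Fin n) : flip (flip x i) j = flip (flip x j) i := by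
  by_cases hij : i = j
  · subst hij; rfl
  · funext k
    by_cases h1 : k = i
    · subst h1
      simp [flip, hij]
    · by_cases h2 : k = j
      · subst h2
        simp [flip, h1]
      · simp [flip, h1, h2]

lemma flip_apply_self (x : Fin n → Bool) (i : Fin n) : flip x i i = !x i := by simp [flip]

lemma flip_apply_ne (x : Fin n → Bool) {i k : Fin n} (h : k ≠ i) : flip x i k = x k := by
  simp [flip, h]

lemma flip_ne (x : Fin n → Bool) (i : Fin n) : flip x i ≠ x := by
  intro h
  have := congrFun h i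
  simp [flip] at this

/-- The involution `x ↦ flip x i` as a permutation. -/
def flipEquiv (i : Fin n) : (Fin n → Bool) ≃ (Fin n → Bool) :=
  ⟨fun x => flip x i, fun x => flip x i, fun x => flip_flip x i, fun x => flip_flip x i⟩

lemma sum_flip {M : Type*} [AddCommMonoid M] (f : (Fin n → Bool) → M) (i : Fin n) :
    ∑ x, f (flip x i) = ∑ x, f x :=
  Equiv.sum_comp (flipEquiv i) f

lemma hyper_adj_iff (x y : Fin n → Bool) : (hypercube n).Adj x y ↔ ∃ i, y = flip x i := by
  rw [hypercube_adj, Finset.card_eq_one]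
  constructor
  · rintro ⟨i, hi⟩
    refine ⟨i, ?_⟩
    funext k
    by_cases h : k = i
    · subst h
      have : k ∈ ({k} : Finset (Fin n)) := by simp
      rw [← hi] at this
      simp only [ne_eq, mem_filter, mem_univ, true_and] at this
      rw [flip_apply_self]
      cases hx : x k <;> cases hy : y k <;> simp_all
    · have : k ∉ ({i} : Finset (Fin n)) := by simpa using h
      rw [← hi] at this
      simp only [ne_eq, mem_filter, mem_univ, true_and, not_not] at this
      rw [flip_apply_ne x h, this]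
  · rintro ⟨i, rfl⟩
    refine ⟨i, ?_⟩
    ext k
    by_cases h : k = i
    · subst h
      simp [flip]
    · simp [flip, h]

section signs

open Classical in
/-- The sign of the edge in direction `i` at `x`: `1` if it belongs to `H`, `-1` otherwise. -/
noncomputable def sg (H : SimpleGraph (Fin n → Bool)) (x : Fin n → Bool) (i : Fin n) : ℝ :=
  if H.Adj x (flip x i) then 1 else -1

variable (H : SimpleGraph (Fin n → Bool))

lemma sg_flip (x : Fin n → Bool) (i : Fin n) : sg H (flip x i) i = sg H x i := by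
  unfold sg
  rw [flip_flip, H.adj_comm]

lemma sg_sq (x : Fin n → Bool) (i : Fin n) : sg H x i * sg H x i = 1 := by
  unfold sg; split <;> norm_num

open Classical in
/-- The degree of `x` in `H`. -/
noncomputable def dg (x : Fin n → Bool) : ℝ := ((univ.filter fun i => H.Adj x (flip x i)).card : ℝ)

lemma sum_sg (x : Fin n → Bool) : ∑ i, sg H x i = 2 * dg H x - n := by
  classical
  unfold sg dg
  have h1 : ∀ i : Fin n, (if H.Adj x (flip x i) then (1 : ℝ) else -1) =
      2 * (if H.Adj x (flip x i) then (1 : ℝ) else 0) - 1 := by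
    intro i; split <;> norm_num
  rw [Finset.sum_congr rfl fun i _ => h1 i, Finset.sum_sub_distrib, ← Finset.mul_sum,
    Finset.sum_boole]
  simp

/-- The value of a face: `1` for an empty face, `1` for a full one, `-1` for two opposite edges,
`0` otherwise; here through the signs. -/
noncomputable def fv (x : Fin n → Bool) (i j : Fin n) : ℝ :=
  (sg H x i + sg H (flip x j) i) * (sg H x j + sg H (flip x i) j) / 4

lemma sum_pair (i j : Fin n) :
    ∑ x, sg H x i * sg H x j = ∑ x, fv H x i j := by
  have e1 : ∑ x, sg H x i * sg H x j = ∑ x, sg H x i * sg H (flip x i) j := by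
    rw [← sum_flip (fun x => sg H x i * sg H x j) i]
    exact Finset.sum_congr rfl fun x _ => by rw [sg_flip]
  have e2 : ∑ x, sg H x i * sg H x j = ∑ x, sg H (flip x j) i * sg H x j := by
    rw [← sum_flip (fun x => sg H x i * sg H x j) j]
    exact Finset.sum_congr rfl fun x _ => by rw [sg_flip]
  have e3 : ∑ x, sg H x i * sg H x j = ∑ x, sg H (flip x j) i * sg H (flip x i) j := by
    rw [← sum_flip (fun x => sg H x i * sg H x j) j,
      ← sum_flip (fun x => sg H (flip x j) i * sg H (flip x j) j) i]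
    refine Finset.sum_congr rfl fun x _ => ?_
    rw [sg_flip, flip_comm x i j, sg_flip]
  have e4 : ∑ x, fv H x i j = (∑ x, sg H x i * sg H x j + ∑ x, sg H x i * sg H (flip x i) j +
      ∑ x, sg H (flip x j) i * sg H x j + ∑ x, sg H (flip x j) i * sg H (flip x i) j) / 4 := by
    rw [← Finset.sum_add_distrib, ← Finset.sum_add_distrib, ← Finset.sum_add_distrib,
      Finset.sum_div]
    exact Finset.sum_congr rfl fun x _ => by unfold fv; ring
  rw [e4, ← e1, ← e2, ← e3]
  ring

lemma sum_sq : ∑ x, (2 * dg H x - n) ^ 2 =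
    n * 2 ^ n + ∑ i : Fin n, ∑ j : Fin n, if i = j then 0 else ∑ x, fv H x i j := by
  have h1 : ∀ x : Fin n → Bool, (2 * dg H x - n) ^ 2 = ∑ i, ∑ j, sg H x i * sg H x j := by
    intro x
    rw [← sum_sg, sq, Finset.sum_mul_sum]
  rw [Finset.sum_congr rfl fun x _ => h1 x, Finset.sum_comm]
  have h2 : ∀ i : Fin n, ∑ x : Fin n → Bool, ∑ j, sg H x i * sg H x j =
      2 ^ n + ∑ j : Fin n, if i = j then 0 else ∑ x, fv H x i j := by
    intro i
    rw [Finset.sum_comm]
    have h3 : ∀ j : Fin n, ∑ x : Fin n → Bool, sg H x i * sg H x j =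
        (if i = j then (2 : ℝ) ^ n else 0) + (if i = j then 0 else ∑ x, fv H x i j) := by
      intro j
      by_cases hij : i = j
      · subst hij
        simp [sg_sq]
      · simp [hij, sum_pair H i j]
    rw [Finset.sum_congr rfl fun j _ => h3 j, Finset.sum_add_distrib]
    simp
  rw [Finset.sum_congr rfl fun i _ => h2 i, Finset.sum_add_distrib]
  simp

lemma fv_symm (x : Fin n → Bool) (i j : Fin n) : fv H x i j = fv H x j i := by
  unfold fv; ring

lemma fv_flip_left (x : Fin n → Bool) (i j : Fin n) : fv H (flip x i) i j = fv H x i j := by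
  unfold fv
  rw [sg_flip, flip_flip, flip_comm x i j, sg_flip]
  ring

lemma fv_flip_right (x : Fin n → Bool) (i j : Fin n) : fv H (flip x j) i j = fv H x i j := by
  rw [fv_symm, fv_flip_left, fv_symm]

/-- Summing over all vertices = four times the sum over the vertices with both coordinates
`false`. -/
lemma sum_fv_four {i j : Fin n} (hij : i ≠ j) :
    ∑ x, fv H x i j = 4 * ∑ x with (x i = false ∧ x j = false), fv H x i j := by
  classical
  have key : ∀ f : (Fin n → Bool) → ℝ, ∀ k : Fin n, ∑ x, f x =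
      ∑ x with x k = false, (f x + f (flip x k)) := by
    intro f k
    rw [Finset.sum_add_distrib]
    have h1 : ∑ x with x k = false, f (flip x k) = ∑ x with ¬ (x k = false), f x := by
      rw [Finset.sum_filter, Finset.sum_filter,
        ← sum_flip (fun x => if ¬ (x k = false) then f x else 0) k]
      refine Finset.sum_congr rfl fun x _ => ?_
      rw [flip_apply_self]
      cases x k <;> simp
    rw [h1, Finset.sum_filter_add_sum_filter_not]
  have h1 : ∑ x, fv H x i j = 2 * ∑ x with x i = false, fv H x i j := by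
    rw [key (fun x => fv H x i j) i, Finset.mul_sum]
    exact Finset.sum_congr rfl fun x _ => by rw [fv_flip_left]; ring
  have h2 : ∑ x with x i = false, fv H x i j =
      2 * ∑ x with (x i = false ∧ x j = false), fv H x i j := by
    rw [Finset.sum_filter, key (fun x => if x i = false then fv H x i j else 0) j,
      Finset.sum_filter, Finset.sum_filter, Finset.mul_sum]
    refine Finset.sum_congr rfl fun x _ => ?_
    rw [flip_apply_ne x hij, fv_flip_right]
    by_cases h1 : x j = false
    · by_cases h2 : x i = false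
      · simp [h1, h2]; ring
      · simp [h1, h2]
    · simp [h1]
  rw [h1, h2]; ring

lemma sum_faces : (∑ i : Fin n, ∑ j : Fin n, if i = j then 0 else ∑ x, fv H x i j) =
    8 * ∑ t ∈ fourCycles n, fv H t.1 t.2.1 t.2.2 := by
  classical
  have h1 : ∀ i j : Fin n, (if i = j then 0 else ∑ x, fv H x i j) =
      (if i < j then 4 * ∑ x with (x i = false ∧ x j = false), fv H x i j else 0) +
      (if j < i then 4 * ∑ x with (x j = false ∧ x i = false), fv H x j i else 0) := by
    intro i j
    rcases lt_trichotomy i j with h | h | h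
    · simp [h, h.ne, h.not_gt, sum_fv_four H h.ne]
    · subst h; simp
    · have e : ∑ x, fv H x i j = ∑ x, fv H x j i :=
        Finset.sum_congr rfl fun x _ => fv_symm H x i j
      rw [if_neg h.ne', if_neg h.not_gt, if_pos h, e, sum_fv_four H h.ne, zero_add]
  have h2 : (∑ i : Fin n, ∑ j : Fin n, if i = j then 0 else ∑ x, fv H x i j) =
      2 * ∑ i : Fin n, ∑ j : Fin n,
        (if i < j then 4 * ∑ x with (x i = false ∧ x j = false), fv H x i j else 0) := by
    have e1 : (∑ i : Fin n, ∑ j : Fin n, if i = j then 0 else ∑ x, fv H x i j) =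
        (∑ i : Fin n, ∑ j : Fin n,
          (if i < j then 4 * ∑ x with (x i = false ∧ x j = false), fv H x i j else 0)) +
        ∑ i : Fin n, ∑ j : Fin n,
          (if j < i then 4 * ∑ x with (x j = false ∧ x i = false), fv H x j i else 0) := by
      rw [← Finset.sum_add_distrib]
      refine Finset.sum_congr rfl fun i _ => ?_
      rw [← Finset.sum_add_distrib]
      exact Finset.sum_congr rfl fun j _ => h1 i j
    have e2 : (∑ i : Fin n, ∑ j : Fin n,
          (if j < i then 4 * ∑ x with (x j = false ∧ x i = false), fv H x j i else 0)) =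
        ∑ i : Fin n, ∑ j : Fin n,
          (if i < j then 4 * ∑ x with (x i = false ∧ x j = false), fv H x i j else 0) :=
      Finset.sum_comm
    rw [e1, e2]; ring
  rw [h2]
  have h3 : ∑ t ∈ fourCycles n, fv H t.1 t.2.1 t.2.2 =
      ∑ i : Fin n, ∑ j : Fin n,
        (if i < j then ∑ x with (x i = false ∧ x j = false), fv H x i j else 0) := by
    unfold fourCycles
    rw [Finset.sum_filter, ← Finset.univ_product_univ, Finset.sum_product, Finset.sum_comm,
      ← Finset.univ_product_univ, Finset.sum_product]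
    refine Finset.sum_congr rfl fun i _ => Finset.sum_congr rfl fun j _ => ?_
    by_cases h : i < j
    · rw [if_pos h, Finset.sum_filter]
      exact Finset.sum_congr rfl fun x _ => by simp [h]
    · simp [h]
  rw [h3]
  have h4 : ∀ i j : Fin n,
      (if i < j then 4 * ∑ x with (x i = false ∧ x j = false), fv H x i j else 0) =
      4 * (if i < j then ∑ x with (x i = false ∧ x j = false), fv H x i j else 0) := by
    intro i j; split <;> simp
  rw [Finset.sum_congr rfl fun i _ => Finset.sum_congr rfl fun j _ => h4 i j]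
  simp_rw [← Finset.mul_sum]
  ring

lemma flip_flip_ne (x : Fin n → Bool) {i j : Fin n} (hij : i ≠ j) : flip (flip x i) j ≠ x := by
  intro h
  have := congrFun h j
  rw [flip_apply_self, flip_apply_ne x hij.symm] at this
  cases hx : x j <;> simp [hx] at this

lemma flip_ne_flip (x : Fin n → Bool) {i j : Fin n} (hij : i ≠ j) : flip x i ≠ flip x j := by
  intro h
  apply flip_flip_ne x hij
  rw [h, flip_flip]

/-- A four-cycle of `Q_n` all of whose edges are in `H` gives a copy of `C4`. -/
lemma contained (x : Fin n → Bool) {i j : Fin n} (hij : i ≠ j)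
    (h1 : H.Adj x (flip x i)) (h2 : H.Adj (flip x i) (flip (flip x i) j))
    (h3 : H.Adj (flip x j) (flip (flip x i) j)) (h4 : H.Adj x (flip x j)) :
    cycleGraph 4 ⊑ H := by
  let f : Fin 4 → (Fin n → Bool) := ![x, flip x i, flip (flip x i) j, flip x j]
  have n1 := flip_ne x i
  have n2 := flip_ne x j
  have n3 := flip_flip_ne x hij
  have n4 := flip_ne_flip x hij
  have n5 := flip_ne (flip x i) j
  have n6 : flip (flip x i) j ≠ flip x j := by
    rw [flip_comm]; exact flip_ne (flip x j) i
  refine ⟨⟨⟨f, ?_⟩, ?_⟩⟩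
  · intro a b hab
    rw [cycleGraph_adj'] at hab
    fin_cases a <;> fin_cases b <;>
      simp [f] at hab ⊢ <;>
      first
        | exact h1 | exact h1.symm | exact h2 | exact h2.symm | exact h3 | exact h3.symm
        | exact h4 | exact h4.symm | (exfalso; revert hab; decide)
  · intro a b hab
    fin_cases a <;> fin_cases b <;>
      simp [f, n1, n2, n3, n4, n5, n6, n1.symm, n2.symm, n3.symm, n4.symm, n5.symm, n6.symm]
        at hab ⊢

lemma sum_fv_eq (hC : ¬ cycleGraph 4 ⊑ H) : ∑ t ∈ fourCycles n, fv H t.1 t.2.1 t.2.2 =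
    ((emptyCycles H).card : ℝ) - ((oppositeCycles H).card : ℝ) := by
  classical
  have h1 : ∀ t ∈ fourCycles n, fv H t.1 t.2.1 t.2.2 =
      (if (¬ H.Adj t.1 (flip t.1 t.2.1) ∧ ¬ H.Adj t.1 (flip t.1 t.2.2) ∧
        ¬ H.Adj (flip t.1 t.2.2) (flip (flip t.1 t.2.1) t.2.2) ∧
        ¬ H.Adj (flip t.1 t.2.1) (flip (flip t.1 t.2.1) t.2.2)) then (1 : ℝ) else 0) -
      (if ((H.Adj t.1 (flip t.1 t.2.1) ∧ ¬ H.Adj t.1 (flip t.1 t.2.2) ∧
        H.Adj (flip t.1 t.2.2) (flip (flip t.1 t.2.1) t.2.2) ∧
        ¬ H.Adj (flip t.1 t.2.1) (flip (flip t.1 t.2.1) t.2.2)) ∨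
        (¬ H.Adj t.1 (flip t.1 t.2.1) ∧ H.Adj t.1 (flip t.1 t.2.2) ∧
        ¬ H.Adj (flip t.1 t.2.2) (flip (flip t.1 t.2.1) t.2.2) ∧
        H.Adj (flip t.1 t.2.1) (flip (flip t.1 t.2.1) t.2.2))) then (1 : ℝ) else 0) := by
    rintro ⟨x, i, j⟩ ht
    simp only [fourCycles, mem_filter, mem_univ, true_and] at ht
    have hij : i ≠ j := ht.1.ne
    have hc := contained H x hij
    unfold fv sg
    rw [flip_comm x j i]
    by_cases a1 : H.Adj x (flip x i) <;> by_cases a2 : H.Adj x (flip x j) <;>
      by_cases a3 : H.Adj (flip x j) (flip (flip x i) j) <;>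
      by_cases a4 : H.Adj (flip x i) (flip (flip x i) j) <;>
      simp [a1, a2, a3, a4] <;> norm_num
    exact hC (hc a1 a4 a3 a2)
  rw [Finset.sum_congr rfl h1, Finset.sum_sub_distrib, Finset.sum_boole, Finset.sum_boole]
  rfl

lemma degree_eq (hH : H ≤ hypercube n) (x : Fin n → Bool) [Fintype (H.neighborSet x)] :
    (H.degree x : ℝ) = dg H x := by
  classical
  unfold dg
  rw [← SimpleGraph.card_neighborFinset_eq_degree]
  congr 1
  symm
  apply Finset.card_bij (fun i _ => flip x i)
  · intro i hi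
    simpa using hi
  · intro i _ j _ hij
    by_contra h
    exact flip_ne_flip x h hij
  · intro y hy
    rw [mem_neighborFinset] at hy
    obtain ⟨i, rfl⟩ := (hyper_adj_iff x y).1 (hH hy)
    exact ⟨i, by simpa using hy, rfl⟩

lemma sum_dg (hH : H ≤ hypercube n) : ∑ x, dg H x = 2 * (H.edgeSet.ncard : ℝ) := by
  classical
  have h1 := H.sum_degrees_eq_twice_card_edges
  have h2 : H.edgeSet.ncard = H.edgeFinset.card := by
    rw [Set.ncard_eq_toFinset_card']
    rfl
  rw [h2]
  have h3 : ((∑ v, H.degree v : ℕ) : ℝ) = ((2 * H.edgeFinset.card : ℕ) : ℝ) := by rw [h1]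
  push_cast at h3
  rw [← h3]
  exact Finset.sum_congr rfl fun x _ => (degree_eq H hH x).symm

end signs

/-- The number of four-cycles of `Q_n`. -/
lemma card_fourCycles (n : ℕ) : 8 * ((fourCycles n).card : ℝ) = n * (n - 1) * 2 ^ n := by
  classical
  have h := sum_faces (⊤ : SimpleGraph (Fin n → Bool))
  have h1 : ∀ (x : Fin n → Bool) (i j : Fin n), fv (⊤ : SimpleGraph (Fin n → Bool)) x i j = 1 := by
    intro x i j
    have : ∀ (x : Fin n → Bool) (i : Fin n), sg (⊤ : SimpleGraph (Fin n → Bool)) x i = 1 := by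
      intro x i
      unfold sg
      simp [(flip_ne x i).symm]
    unfold fv
    simp only [this]
    norm_num
  simp only [h1, Finset.sum_const, nsmul_eq_mul, mul_one] at h
  rw [← h]
  have h2 : ∀ i : Fin n, (∑ j : Fin n, if i = j then (0 : ℝ) else
      (((univ : Finset (Fin n → Bool)).card : ℕ) : ℝ)) = (n - 1) * 2 ^ n := by
    intro i
    have : ∀ j : Fin n, (if i = j then (0 : ℝ) else
      (((univ : Finset (Fin n → Bool)).card : ℕ) : ℝ)) = 2 ^ n - (if i = j then (2 : ℝ) ^ n else 0) := by
      intro j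
      split <;> simp
    rw [Finset.sum_congr rfl fun j _ => this j, Finset.sum_sub_distrib]
    simp
    ring
  rw [Finset.sum_congr rfl fun i _ => h2 i]
  simp
  ring

/-- **Main theorem.** Let `H` be a `C4`-free subgraph of `Q_n` with `E` edges and degrees `d(x)`,
let `Z` be the number of four-cycles of `Q_n` containing no edge of `H` and `O` the number of
four-cycles of `Q_n` containing exactly two edges of `H` that are opposite. Then

* `∑ x, (2 d(x) - n)^2 = n 2^n + 8 (Z - O)`;
* for `n ≥ 2`, if `E ≥ (1/2 + ε) n 2^(n-1)` with `ε ≥ 0`, then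
  `Z ≥ O + (4 ε^2 - 1/(n-1)) * (number of four-cycles of Q_n)`, the number of four-cycles being
  `n (n-1) 2^n / 8`;
* if every four-cycle of `Q_n` contains an edge of `H`, then `E ≤ (n + √n) 2^n / 4`. -/
theorem result (n : ℕ) (H : SimpleGraph (Fin n → Bool)) (hH : H ≤ hypercube n)
    (hC : ¬ cycleGraph 4 ⊑ H) :
    (∑ x, (2 * ((H.neighborSet x).ncard : ℝ) - n) ^ 2 =
      n * 2 ^ n + 8 * (((emptyCycles H).card : ℝ) - (oppositeCycles H).card)) ∧
    (2 ≤ n → ∀ ε : ℝ, 0 ≤ ε → (1 / 2 + ε) * n * 2 ^ (n - 1 : ℕ) ≤ (H.edgeSet.ncard : ℝ) →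
      ((oppositeCycles H).card : ℝ) + (4 * ε ^ 2 - 1 / (n - 1)) * ((fourCycles n).card : ℝ) ≤
        (emptyCycles H).card) ∧
    (((fourCycles n).card : ℝ) = n * (n - 1) * 2 ^ n / 8) ∧
    (emptyCycles H = ∅ → (H.edgeSet.ncard : ℝ) ≤ (n + Real.sqrt n) * 2 ^ n / 4) := by
  classical
  have hsq := sum_sq H
  rw [sum_faces, sum_fv_eq H hC] at hsq
  have hE := sum_dg H hH
  -- Cauchy-Schwarz
  have hlin : ∑ x, (2 * dg H x - n) = 4 * (H.edgeSet.ncard : ℝ) - n * 2 ^ n := by
    rw [Finset.sum_sub_distrib, ← Finset.mul_sum, hE]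
    simp
    ring
  have hCS : (4 * (H.edgeSet.ncard : ℝ) - n * 2 ^ n) ^ 2 ≤
      2 ^ n * (n * 2 ^ n + 8 * (((emptyCycles H).card : ℝ) - (oppositeCycles H).card)) := by
    rw [← hlin, ← hsq]
    have := sq_sum_le_card_mul_sum_sq (s := (univ : Finset (Fin n → Bool)))
      (f := fun x => 2 * dg H x - n)
    simpa using this
  refine ⟨?_, ?_, ?_, ?_⟩
  · rw [← hsq]
    refine Finset.sum_congr rfl fun x _ => ?_
    have : ((H.neighborSet x).ncard : ℝ) = dg H x := by
      rw [← degree_eq H hH x, Set.ncard_eq_toFinset_card']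
      rfl
    rw [this]
  · intro hn ε hε hden
    have hpow : (2 : ℝ) ^ n = 2 * 2 ^ (n - 1 : ℕ) := by
      rw [← pow_succ']
      congr 1
      omega
    have hn' : (2 : ℝ) ≤ n := by exact_mod_cast hn
    have hp : (0 : ℝ) < 2 ^ n := by positivity
    have h1 : 2 * ε * n * 2 ^ n ≤ 4 * (H.edgeSet.ncard : ℝ) - n * 2 ^ n := by
      rw [hpow] at *
      nlinarith
    have h2 : (2 * ε * n * 2 ^ n) ^ 2 ≤
        2 ^ n * (n * 2 ^ n + 8 * (((emptyCycles H).card : ℝ) - (oppositeCycles H).card)) :=
      le_trans (pow_le_pow_left₀ (by positivity) h1 2) hCS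
    have h3 : 4 * ε ^ 2 * n ^ 2 * 2 ^ n ≤
        n * 2 ^ n + 8 * (((emptyCycles H).card : ℝ) - (oppositeCycles H).card) := by
      have : 2 ^ n * (4 * ε ^ 2 * n ^ 2 * 2 ^ n) ≤
        2 ^ n * (n * 2 ^ n + 8 * (((emptyCycles H).card : ℝ) - (oppositeCycles H).card)) := by
        refine le_trans (le_of_eq ?_) h2
        ring
      exact le_of_mul_le_mul_left this hp
    have hcard := card_fourCycles n
    have hn1 : (0 : ℝ) < n - 1 := by linarith
    have h4 : (4 * ε ^ 2 - 1 / (n - 1)) * ((fourCycles n).card : ℝ) * 8 ≤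
        4 * ε ^ 2 * n ^ 2 * 2 ^ n - n * 2 ^ n := by
      have e1 : (4 * ε ^ 2 - 1 / (n - 1)) * ((fourCycles n).card : ℝ) * 8 =
          4 * ε ^ 2 * (n * (n - 1) * 2 ^ n) - n * 2 ^ n := by
        have : (4 * ε ^ 2 - 1 / (n - 1)) * ((fourCycles n).card : ℝ) * 8 =
          (4 * ε ^ 2 - 1 / (n - 1)) * (8 * ((fourCycles n).card : ℝ)) := by ring
        rw [this, hcard]
        field_simp
      rw [e1]
      have : 0 ≤ 4 * ε ^ 2 * n * 2 ^ n := by positivity
      nlinarith
    linarith
  · have := card_fourCycles n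
    linarith
  · intro hZ
    rw [hZ] at hCS
    simp only [card_empty, CharP.cast_eq_zero, zero_sub] at hCS
    have hO : (0 : ℝ) ≤ (oppositeCycles H).card := by positivity
    have hp : (0 : ℝ) < 2 ^ n := by positivity
    have h1 : (4 * (H.edgeSet.ncard : ℝ) - n * 2 ^ n) ^ 2 ≤ (Real.sqrt n * 2 ^ n) ^ 2 := by
      rw [mul_pow, Real.sq_sqrt (by positivity)]
      nlinarith
    have h2 := abs_le_of_sq_le_sq' h1 (by positivity)
    linarith [h2.2]

end Pool.Agent.Results.MP_4093f8_co.EmptyFourCycles
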