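import Pool.Prelude.Def_F_a92f9a66
import Pool.Agent.H.MP_4093f8_co.OrdS

/-!
# C4-free subgraphs of the hypercube that are symmetric in the later coordinates of each block

Let the directions of `Q_n` be split into `c` blocks and let `H` be a `C4`-free subgraph of `Q_n`
such that the status of the edges in direction `i` is an arbitrary function of the coordinates that
are not after `i` in the block of `i`, and of the number of ones among the coordinates after `i` in
this block. Then `H` has at most `(n/2 + 12 c^(1/9) n^(8/9)) 2^n / 2` edges.
-/

open SimpleGraph Finset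

namespace Pool.Agent.Results.MP_4093f8_co.LaterSymmetric

section

variable {n : ℕ}

/-- The vertex `x` of `Q_n` with its coordinate `i` switched. -/
def flip (x : Fin n → Bool) (i : Fin n) : Fin n → Bool := Function.update x i (!x i)

/-- The number of ones of `x` in `V`. -/
def ones (V : Finset (Fin n)) (x : Fin n → Bool) : ℕ := (V.filter fun j => x j = true).card

/-- The coordinates after `i` in the block of `i`; the blocks are the nonempty fibres of `β`. -/
def later (β : Fin n → ℕ) (i : Fin n) : Finset (Fin n) := univ.filter fun j => i < j ∧ β j = β i

end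

open Pool.Agent.H.MP_4093f8_co in
/-- Let `H` be a `C4`-free subgraph of `Q_n` such that the status of the edges in each direction `i`
depends only on the coordinates outside `later β i` and on the number of ones in `later β i`. Then
`H` has at most `(n/2 + 12 c^(1/9) n^(8/9)) 2^n / 2` edges, where `c` is the number of blocks. -/
theorem result :
    ∀ (n : ℕ) (β : Fin n → ℕ) (H : SimpleGraph (Fin n → Bool)), H ≤ hypercube n →
      ¬ cycleGraph 4 ⊑ H →
      (∀ (i : Fin n) (x y : Fin n → Bool), (∀ j ∉ later β i, x j = y j) →
        ones (later β i) x = ones (later β i) y → (H.Adj x (flip x i) ↔ H.Adj y (flip y i))) →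
      (H.edgeSet.ncard : ℝ) ≤ ((n : ℝ) / 2 + 12 * ((univ.image β).card : ℝ) ^ (1 / 9 : ℝ) *
        (n : ℝ) ^ (8 / 9 : ℝ)) * (2 ^ n / 2) := by
  classical
  intro n β H hH hC hsym
  have h1 := Ord.explicit_bound β (Ord.sta H) (Ord.sta_self H) hsym (Ord.sta_free H hC)
  rw [Ord.edge_count H hH] at h1
  linarith

end Pool.Agent.Results.MP_4093f8_co.LaterSymmetric
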