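import Pool.Agent.H.MP_4093f8_co.Poly.Graph

/-!
# C4-free subgraphs of the hypercube with polynomial directions

Let `H` be a `C4`-free subgraph of `Q_n`. Suppose that, up to a small proportion, the edges of `H`
in direction `i` are decided by the value of a polynomial of degree at most `d` with coefficients in
a fixed finite abelian group `A`, together with a function of small total influence. Then `H` has at
most `(1/2 + ε) n 2^(n-1)` edges.
-/

namespace Pool.Agent.Results.MP_4093f8_co.PolynomialDirections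

open SimpleGraph Pool.Agent.H.MP_4093f8_co.Poly

theorem result (A : Type) [AddCommGroup A] [Finite A] (d : ℕ) (ε : ℝ) (hε : 0 < ε) :
    ∃ δ : ℝ, 0 < δ ∧ ∃ n₀ : ℕ, ∀ n ≥ n₀, ∀ H : SimpleGraph (Fin n → Bool), H ≤ hypercube n →
      ¬ cycleGraph 4 ⊑ H →
      ∀ (c : Fin n → Finset (Fin n) → A) (B : Type) (g : Fin n → (Fin n → Bool) → B)
        (Φ : Fin n → A → B → Prop),
        ∑ i, (sensitivity (g i) : ℝ) ≤ δ * n ^ 2 * 2 ^ n →
        ({p : Fin n × (Fin n → Bool) | ¬ (H.Adj p.2 (flip p.2 p.1) ↔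
          Φ p.1 (poly d (c p.1) p.2) (g p.1 p.2))}.ncard : ℝ) ≤ δ * n * 2 ^ n →
        (H.edgeSet.ncard : ℝ) ≤ (1 / 2 + ε) * n * 2 ^ (n - 1) :=
  main_graph A d ε hε

end Pool.Agent.Results.MP_4093f8_co.PolynomialDirections
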