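import Pool.Prelude.Def_F_a92f9a66
import Pool.Agent.H.MP_4093f8_co.OrdS

/-!
# C4-free subgraphs of the hypercube and subgraphs of bounded complexity

Let `H` be a `C4`-free subgraph of `Q_n` and `G` a subgraph of `Q_n` such that, for each direction
`i`, the status of the edges in direction `i` (whether they belong to `G`) is an arbitrary function
of the coordinates outside a set `V i` and a tame function of the coordinates in `V i`. Then `H` has
at most `((1/2 + ε) n + L c) 2^n / 2 + K |E(G) Δ E(H)|` edges, where `c` is the number of blocks of a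
partition of the directions such that any `ω` directions of a block contain `i`, `j` with `j ∈ V i`.
-/

open SimpleGraph Finset Filter Topology

namespace Pool.Agent.Results.MP_4093f8_co.TameDirections

section

variable {n : ℕ}

/-- The vertex `x` of `Q_n` with its coordinate `i` switched. -/
def flip (x : Fin n → Bool) (i : Fin n) : Fin n → Bool := Function.update x i (!x i)

/-- The vertex that agrees with `x` on `V` and with `w` outside `V`. -/
def glue (V : Finset (Fin n)) (x w : Fin n → Bool) : Fin n → Bool :=
  fun j => if j ∈ V then x j else w j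

/-- The number of ones of `x` in `V`. -/
def ones (V : Finset (Fin n)) (x : Fin n → Bool) : ℕ := (V.filter fun j => x j = true).card

open Classical in
/-- The total influence of the coordinates in `V` on the restriction of `f` to the subcube of the
vertices that agree with `w` outside `V`: the sum over `i ∈ V` of the probability that `f` changes
when the coordinate `i` is switched. -/
noncomputable def influence {X : Type} (f : (Fin n → Bool) → X) (V : Finset (Fin n))
    (w : Fin n → Bool) : ℝ :=
  ∑ i ∈ V, ((univ.filter fun x : Fin n → Bool =>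
    f (glue V x w) ≠ f (glue V (flip x i) w)).card : ℝ) / 2 ^ n

/-- The `A`-valued polynomial of degree at most `d` in the coordinates in `V` (as `0`, `1`) with
coefficients `c T`, `T ⊆ V`, `|T| ≤ d`. -/
def poly {A : Type} [AddCommGroup A] (d : ℕ) (V : Finset (Fin n)) (c : Finset (Fin n) → A)
    (x : Fin n → Bool) : A :=
  ∑ T ∈ V.powerset with T.card ≤ d ∧ ∀ j ∈ T, x j = true, c T

/-- The composition of the maps `m j (x j) : Q → Q`, `j ∈ V`, in the order `σ 0, σ 1, …`: the
action on its states of an automaton that reads the coordinates in `V` in this order. -/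
def run {Q : Type} (σ : Equiv.Perm (Fin n)) (V : Finset (Fin n)) (m : Fin n → Bool → Q → Q)
    (x : Fin n → Bool) : Q → Q :=
  (List.ofFn fun k : Fin n => if σ k ∈ V then m (σ k) (x (σ k)) else id).foldr (· ∘ ·) id

/-- For each fixing `z` of the coordinates outside `V`, the value of `g` is determined by the
numbers of ones in `q` classes of coordinates in `V`, the value of a polynomial of degree at most `d`
with coefficients in `A`, the composition of maps of `Q` given by the coordinates in `V` in some
order, and the value of a map `f` into `X` whose total influence on each subcube in `N` directions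
of `V` is at most `φ N`. -/
def Tame (q d : ℕ) (A Q X : Type) [AddCommGroup A] (φ : ℕ → ℝ) (V : Finset (Fin n))
    (g : (Fin n → Bool) → Prop) : Prop :=
  ∀ z : Fin n → Bool, ∃ (χ : Fin n → Fin q) (c : Finset (Fin n) → A) (σ : Equiv.Perm (Fin n))
    (m : Fin n → Bool → Q → Q) (f : (Fin n → Bool) → X),
    (∀ V' ⊆ V, ∀ w, influence f V' w ≤ φ V'.card) ∧
    ∀ x y : Fin n → Bool, (∀ j ∉ V, x j = z j) → (∀ j ∉ V, y j = z j) →
      (∀ k, ones (V.filter fun j => χ j = k) x = ones (V.filter fun j => χ j = k) y) →
      poly d V c x = poly d V c y → run σ V m x = run σ V m y → f x = f y → (g x ↔ g y)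

end

open Pool.Agent.H.MP_4093f8_co in
lemma influence_eq {n : ℕ} {X : Type} (f : (Fin n → Bool) → X) (V : Finset (Fin n))
    (w : Fin n → Bool) : ∑ i ∈ V, Ord.sens f V w i = influence f V w * 2 ^ n := by
  classical
  unfold influence
  rw [Finset.sum_mul]
  refine Finset.sum_congr rfl fun i _ => ?_
  rw [div_mul_cancel₀ _ (by positivity)]
  unfold Ord.sens
  rw [Finset.sum_boole]
  rfl

open Pool.Agent.H.MP_4093f8_co in
/-- **Main theorem.** For every `ε > 0` there is `K`, and for all `q, d, ω`, each finite abelian group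
`A`, finite set `Q`, set `X` and `φ` with `φ N / N → 0` there is `L`, such that for all `n`, all
partitions of the directions into `c` blocks and all sets `V i` of coordinates, `i ∉ V i`, such that
any `ω` directions of a block contain `i`, `j` with `j ∈ V i`: if `G`, `H` are subgraphs of `Q_n`,
the status in `G` of the edges in each direction `i` is tame in `V i`, and `H` is `C4`-free, then
`H` has at most `((1/2 + ε) n + L c) 2^n / 2 + K |E(G) Δ E(H)|` edges. -/
theorem result :
    ∀ ε : ℝ, 0 < ε → ∃ K : ℝ, ∀ (q d ω : ℕ) (A Q X : Type) [AddCommGroup A] [Finite A]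
      [Finite Q] (φ : ℕ → ℝ), Tendsto (fun N : ℕ => φ N / N) atTop (𝓝 0) →
      ∃ L : ℕ, ∀ (n : ℕ) (β : Fin n → ℕ) (V : Fin n → Finset (Fin n)), (∀ i, i ∉ V i) →
      (∀ S : Finset (Fin n), (∀ i ∈ S, ∀ j ∈ S, β i = β j) → ω ≤ S.card →
        ∃ i ∈ S, ∃ j ∈ S, j ∈ V i) →
      ∀ G H : SimpleGraph (Fin n → Bool), G ≤ hypercube n → H ≤ hypercube n →
      (∀ i, Tame q d A Q X φ (V i) (fun x => G.Adj x (flip x i))) → ¬ cycleGraph 4 ⊑ H →
      (H.edgeSet.ncard : ℝ) ≤ ((1 / 2 + ε) * n + L * (univ.image β).card) * (2 ^ n / 2) +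
        K * ((symmDiff G.edgeSet H.edgeSet).ncard : ℝ) := by
  classical
  intro ε hε
  obtain ⟨K, hK0, hK⟩ := Ord.total_bound hε
  refine ⟨K, ?_⟩
  intro q d ω A Q X _ _ _ φ hφ
  have := Fintype.ofFinite A
  have := Fintype.ofFinite Q
  obtain ⟨L, hL⟩ := hK q d ω A Q X φ hφ
  refine ⟨L, ?_⟩
  intro n β V hVi hω G H hG hH hT hC
  have h1 := hL n β V (Ord.sta G) (Ord.sta H) hVi
    (by
      intro S hS hSc
      obtain ⟨i, hi, j, hj, hij⟩ := hω S hS hSc
      refine ⟨i, hi, j, hj, ?_, hij⟩
      rintro rfl
      exact hVi _ hij)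
    (by
      intro i z
      obtain ⟨χ, c, σ, m, f, hf, hdet⟩ := hT i z
      refine ⟨χ, c, σ, m, f, ?_, hdet⟩
      intro V' hV' w
      rw [influence_eq]
      exact mul_le_mul_of_nonneg_right (hf V' hV' w) (by positivity))
    (Ord.sta_self G) (Ord.sta_self H) (Ord.sta_free H hC)
  rw [Ord.edge_count H hH] at h1
  -- the differences
  set D : SimpleGraph (Fin n → Bool) := (G \ H) ⊔ (H \ G) with hD
  have hDle : D ≤ hypercube n := sup_le (sdiff_le.trans hG) (sdiff_le.trans hH)
  have hDe : D.edgeSet = symmDiff G.edgeSet H.edgeSet := by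
    rw [hD, SimpleGraph.edgeSet_sup, SimpleGraph.edgeSet_sdiff, SimpleGraph.edgeSet_sdiff]
    rfl
  have h2 := Ord.edge_count D hDle
  rw [hDe] at h2
  have h3 : ∑ i, ∑ x, Ord.tt (Ord.ind (Ord.err (Ord.sta H) (Ord.sta G))) i x =
      ∑ i, ∑ x, Ord.tt (Ord.ind (Ord.sta D)) i x := by
    refine Finset.sum_congr rfl fun i _ => Finset.sum_congr rfl fun x _ => ?_
    rw [Ord.tt_ind, Ord.tt_ind]
    refine if_congr ?_ rfl rfl
    unfold Ord.err Ord.sta
    rw [hD, SimpleGraph.sup_adj, SimpleGraph.sdiff_adj, SimpleGraph.sdiff_adj]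
    tauto
  rw [h3, h2] at h1
  linarith

end Pool.Agent.Results.MP_4093f8_co.TameDirections
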